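import Pool.Agent.H23.PL.Targets

/-!
# Row DVT: the number of the tuples with bounded product
-/

set_option autoImplicit false

open Finset Polynomial Pool.Agent.H23.PL

namespace Pool.Agent.H55.PL

/-- the set of the tuples -/
def SS (t : ℕ) (y : ℝ) : Set (Fin t → ℕ) :=
  {q : Fin t → ℕ | (∀ l, 1 ≤ q l) ∧ ((∏ l, q l : ℕ) : ℝ) ≤ y}

theorem SS_fin (t : ℕ) (y : ℝ) : (SS t y).Finite := by
  refine Set.Finite.subset (Fintype.piFinset fun _ : Fin t => range (⌊y⌋₊ + 1)).finite_toSet ?_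
  intro q hq
  have h1 : 0 < ∏ l, q l := Finset.prod_pos fun l _ => hq.1 l
  have hy : 0 ≤ y := le_trans (Nat.cast_nonneg _) hq.2
  simp only [Finset.mem_coe, Fintype.mem_piFinset, Finset.mem_range]
  intro l
  have h2 : q l ≤ ∏ l, q l := Nat.le_of_dvd h1 (Finset.dvd_prod_of_mem q (Finset.mem_univ l))
  have h3 : ∏ l, q l ≤ ⌊y⌋₊ := Nat.le_floor hq.2
  omega

theorem SS_card (t : ℕ) : ∀ y : ℝ, 1 ≤ y →
    ((SS t y).ncard : ℝ) ≤ y * (1 + Real.log y) ^ t := by
  induction t with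
  | zero =>
    intro y hy
    have h1 : (SS 0 y).ncard ≤ 1 := by
      rw [Set.ncard_le_one (SS_fin 0 y)]
      intro a _ b _
      exact Subsingleton.elim a b
    have h2 : ((SS 0 y).ncard : ℝ) ≤ 1 := by exact_mod_cast h1
    simpa using h2.trans hy
  | succ t ih =>
    intro y hy
    have hlog : 0 ≤ Real.log y := Real.log_nonneg hy
    classical
    set J : Finset ℕ := Icc 1 ⌊y⌋₊ with hJ
    set T : Finset (Fin (t + 1) → ℕ) := J.biUnion fun q₀ =>
      (SS_fin t (y / q₀)).toFinset.image fun q => (Fin.cons q₀ q : Fin (t + 1) → ℕ) with hT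
    have hsub : SS (t + 1) y ⊆ (T : Set (Fin (t + 1) → ℕ)) := by
      intro q hq
      have h1 : 0 < ∏ l : Fin t, q l.succ := Finset.prod_pos fun l _ => hq.1 _
      have h0 : 1 ≤ q 0 := hq.1 0
      have h2 : ((q 0 : ℝ)) * ((∏ l : Fin t, q l.succ : ℕ) : ℝ) ≤ y := by
        have := hq.2
        rw [Fin.prod_univ_succ] at this
        exact_mod_cast this
      have h3 : (0 : ℝ) < q 0 := by exact_mod_cast h0
      have h4 : (1 : ℝ) ≤ ((∏ l : Fin t, q l.succ : ℕ) : ℝ) := by exact_mod_cast h1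
      have h5 : (q 0 : ℝ) ≤ y := by nlinarith
      rw [hT, Finset.mem_coe, Finset.mem_biUnion]
      refine ⟨q 0, ?_, ?_⟩
      · rw [hJ, Finset.mem_Icc]
        exact ⟨h0, Nat.le_floor h5⟩
      · rw [Finset.mem_image]
        refine ⟨Fin.tail q, ?_, Fin.cons_self_tail q⟩
        rw [Set.Finite.mem_toFinset]
        refine ⟨fun l => hq.1 _, ?_⟩
        rw [le_div_iff₀ h3, mul_comm]
        exact h2
    have h1 : (SS (t + 1) y).ncard ≤ T.card := by
      rw [← Set.ncard_coe_finset T]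
      exact Set.ncard_le_ncard hsub T.finite_toSet
    have h2 : T.card ≤ ∑ q₀ ∈ J, (SS t (y / q₀)).ncard := by
      refine Finset.card_biUnion_le.trans (Finset.sum_le_sum fun q₀ _ => ?_)
      refine Finset.card_image_le.trans ?_
      rw [Set.ncard_eq_toFinset_card _ (SS_fin t (y / q₀))]
    have h3 : ((SS (t + 1) y).ncard : ℝ) ≤ ∑ q₀ ∈ J, ((SS t (y / q₀)).ncard : ℝ) := by
      exact_mod_cast h1.trans h2
    have h4 : ∑ q₀ ∈ J, ((SS t (y / q₀)).ncard : ℝ) ≤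
        ∑ q₀ ∈ J, (y * (1 + Real.log y) ^ t) * ((q₀ : ℝ))⁻¹ := by
      refine Finset.sum_le_sum fun q₀ hq₀ => ?_
      rw [hJ, Finset.mem_Icc] at hq₀
      have h5 : (1 : ℝ) ≤ q₀ := by exact_mod_cast hq₀.1
      have h6 : (q₀ : ℝ) ≤ y := le_trans (by exact_mod_cast hq₀.2) (Nat.floor_le (by linarith))
      have h7 : 1 ≤ y / q₀ := by rw [le_div_iff₀ (by linarith)]; linarith
      have h8 : y / q₀ ≤ y := div_le_self (by linarith) h5
      have h9 : Real.log (y / q₀) ≤ Real.log y := Real.log_le_log (by linarith) h8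
      have h10 : 0 ≤ Real.log (y / q₀) := Real.log_nonneg h7
      calc ((SS t (y / q₀)).ncard : ℝ) ≤ y / q₀ * (1 + Real.log (y / q₀)) ^ t := ih _ h7
        _ ≤ y / q₀ * (1 + Real.log y) ^ t := by
            refine mul_le_mul_of_nonneg_left ?_ (by linarith)
            exact pow_le_pow_left₀ (by linarith) (by linarith) t
        _ = (y * (1 + Real.log y) ^ t) * ((q₀ : ℝ))⁻¹ := by rw [div_eq_mul_inv]; ring
    have h5 : ∑ q₀ ∈ J, ((q₀ : ℝ))⁻¹ ≤ 1 + Real.log y := by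
      have h6 := harmonic_floor_le_one_add_log y hy
      rw [harmonic_eq_sum_Icc] at h6
      have h7 : ((∑ i ∈ Icc 1 ⌊y⌋₊, ((i : ℚ))⁻¹ : ℚ) : ℝ) = ∑ q₀ ∈ J, ((q₀ : ℝ))⁻¹ := by
        rw [hJ]
        push_cast
        rfl
      rw [← h7]
      exact h6
    calc ((SS (t + 1) y).ncard : ℝ) ≤ ∑ q₀ ∈ J, (y * (1 + Real.log y) ^ t) * ((q₀ : ℝ))⁻¹ :=
          h3.trans h4
      _ = (y * (1 + Real.log y) ^ t) * ∑ q₀ ∈ J, ((q₀ : ℝ))⁻¹ := by rw [Finset.mul_sum]
      _ ≤ (y * (1 + Real.log y) ^ t) * (1 + Real.log y) :=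
          mul_le_mul_of_nonneg_left h5 (by positivity)
      _ = y * (1 + Real.log y) ^ (t + 1) := by rw [pow_succ]; ring

theorem pf_DVT : T_DVT := by
  intro t y hy
  exact ⟨SS_fin t y, SS_card t y hy⟩

end Pool.Agent.H55.PL
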